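import Mathlib
import Pool.Agent.N119.PS.Stm3

/-!
Project PSC3 (helper119), part SHF: rays and translations.
-/

set_option autoImplicit false

namespace Pool.Agent.N588.PSC3

open Pool.Agent.H67R3.FSR Pool.Agent.H67R4.SR

variable {N : ℕ}

theorem shift (g : FreeGroup (Fin N)) (ξ : Bd N) {a b : ℕ} (h : ray (g • ξ) a = g * ray ξ b) :
    ∀ n, ray (g • ξ) (n + a) = g * ray ξ (n + b)
  | 0 => by rw [Nat.zero_add, Nat.zero_add, h]
  | n + 1 => by
    have ih := shift g ξ h n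
    have e1 : ray (g • ξ) (n + 1 + a) =
        ray (g • ξ) (n + a) * lt ((g • ξ).1 (ray (g • ξ) (n + a))) := by
      rw [Nat.add_right_comm n 1 a, ray]
    have e2 : ray ξ (n + 1 + b) = ray ξ (n + b) * lt (ξ.1 (ray ξ (n + b))) := by
      rw [Nat.add_right_comm n 1 b, ray]
    rw [e1, e2, Bd.smul_apply, ih, inv_mul_cancel_left, mul_assoc]

theorem shift_lt (c : Lt N) (ξ : Bd N) : ∃ a b : ℕ, ray (lt c • ξ) a = lt c * ray ξ b := by
  by_cases h : ξ.1 1 = inv' c
  · refine ⟨0, 1, ?_⟩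
    rw [ray, ray, ray, h, one_mul, lt_inv', mul_inv_cancel]
  · refine ⟨1, 0, ?_⟩
    have h1 : (lt c • ξ).1 1 = c := by
      rw [Bd.smul_apply, mul_one, ← lt_inv']
      have := (ξ.2 1 (inv' c)).2 h
      rwa [one_mul, inv'_inv'] at this
    rw [ray, ray, ray, h1, one_mul, mul_one]

theorem t : Pool.Agent.N119.PS.S_SHF := by
  intro N g
  have hlt : ∀ (c : Lt N) (ξ : Bd N), ∃ a b : ℕ, ∀ n,
      ray (lt c • ξ) (n + a) = lt c * ray ξ (n + b) := by
    intro c ξ
    obtain ⟨a, b, h⟩ := shift_lt c ξ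
    exact ⟨a, b, shift _ _ h⟩
  induction g using FreeGroup.induction_on with
  | C1 =>
    intro ξ
    exact ⟨0, 0, fun n => by rw [one_smul, one_mul]⟩
  | of x => exact hlt (x, true)
  | inv_of x _ => exact hlt (x, false)
  | mul x y hx hy =>
    intro ξ
    obtain ⟨a1, b1, h1⟩ := hy ξ
    obtain ⟨a2, b2, h2⟩ := hx (y • ξ)
    refine ⟨a1 + a2, b2 + b1, fun n => ?_⟩
    rw [mul_smul, ← add_assoc, h2, Nat.add_right_comm n a1 b2, h1, ← add_assoc, mul_assoc]

end Pool.Agent.N588.PSC3
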